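import Pool.Agent.H85.AU.Targets

/-!
# MP_c9ef16_gt, board au, module EXT
-/

open CategoryTheory CategoryTheory.Limits TopologicalSpace Topology Set
open Pool.Agent.H85.AU

universe w

namespace Pool.Agent.H69.AU

theorem pf_EXT : T_EXT.{w} := by
  intro C _ _ _ A G E E' i p i' p' z z' h h' he
  have := h.mono_f
  have := h'.mono_f
  have := h.epi_g
  have := h'.epi_g
  -- a lift s of p through p'
  obtain ⟨x, hx⟩ := Abelian.Ext.covariant_sequence_exact₃ E h' (Abelian.Ext.mk₀ p)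
    (n₁ := 1) (by norm_num) (by
      rw [← he]
      exact h.comp_extClass)
  obtain ⟨s, rfl⟩ := (Abelian.Ext.mk₀_bijective _ _).2 x
  have hs : s ≫ p' = p := by
    rw [Abelian.Ext.mk₀_comp_mk₀] at hx
    exact (Abelian.Ext.mk₀_bijective _ _).1 hx
  -- the induced endomorphism u of A
  have hz : (i ≫ s) ≫ p' = 0 := by rw [Category.assoc, hs, z]
  let u : A ⟶ A := h'.fIsKernel.lift (KernelFork.ofι _ hz)
  have hu : u ≫ i' = i ≫ s := h'.fIsKernel.fac _ WalkingParallelPair.zero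
  let φ : ShortComplex.mk i p z ⟶ ShortComplex.mk i' p' z' :=
    { τ₁ := u
      τ₂ := s
      τ₃ := 𝟙 G
      comm₁₂ := hu
      comm₂₃ := by
        show s ≫ p' = p ≫ 𝟙 G
        rw [hs, Category.comp_id] }
  have hnat := ShortComplex.ShortExact.extClass_naturality.{w} h h' φ
  have hu1 : h.extClass.{w}.comp (Abelian.Ext.mk₀ (u - 𝟙 A)) (add_zero 1) = 0 := by
    have h1 : h.extClass.{w}.comp (Abelian.Ext.mk₀ u) (add_zero 1) = h.extClass.{w} := by
      refine hnat.trans ?_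
      show (Abelian.Ext.mk₀ (𝟙 G)).comp h'.extClass (zero_add 1) = _
      rw [Abelian.Ext.mk₀_id_comp, he]
    rw [sub_eq_add_neg, Abelian.Ext.mk₀_add, Abelian.Ext.mk₀_neg, Abelian.Ext.comp_add,
      Abelian.Ext.comp_neg, h1, Abelian.Ext.comp_mk₀_id, add_neg_cancel]
  obtain ⟨y, hy⟩ := Abelian.Ext.contravariant_sequence_exact₁ h A (Abelian.Ext.mk₀ (u - 𝟙 A))
    (n₁ := 1) (by norm_num) hu1
  obtain ⟨v, rfl⟩ := (Abelian.Ext.mk₀_bijective _ _).2 y
  have hv : i ≫ v = u - 𝟙 A := by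
    have hy' : (Abelian.Ext.mk₀ i).comp (Abelian.Ext.mk₀ v) (zero_add 0) =
      Abelian.Ext.mk₀ (u - 𝟙 A) := hy
    rw [Abelian.Ext.mk₀_comp_mk₀] at hy'
    exact (Abelian.Ext.mk₀_bijective _ _).1 hy'
  let s' : E ⟶ E' := s - v ≫ i'
  let ψ : ShortComplex.mk i p z ⟶ ShortComplex.mk i' p' z' :=
    { τ₁ := 𝟙 A
      τ₂ := s'
      τ₃ := 𝟙 G
      comm₁₂ := by
        show 𝟙 A ≫ i' = i ≫ (s - v ≫ i')
        rw [Preadditive.comp_sub, ← hu, ← Category.assoc, hv, Preadditive.sub_comp,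
          sub_sub_cancel]
      comm₂₃ := by
        show (s - v ≫ i') ≫ p' = p ≫ 𝟙 G
        rw [Preadditive.sub_comp, hs, Category.assoc, z', Limits.comp_zero, sub_zero,
          Category.comp_id] }
  have h1 : IsIso ψ.τ₁ := inferInstanceAs (IsIso (𝟙 A))
  have h3 : IsIso ψ.τ₃ := inferInstanceAs (IsIso (𝟙 G))
  have h2 : IsIso ψ.τ₂ := ShortComplex.isIso₂_of_shortExact_of_isIso₁₃ ψ h h'
  have h2' : IsIso s' := h2
  exact ⟨asIso s'⟩

end Pool.Agent.H69.AU
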