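import Pool.Agent.H85.AU.Targets

/-!
# MP_c9ef16_gt, board au, module HM0
-/

open CategoryTheory CategoryTheory.Limits TopologicalSpace Topology Set
open Pool.Agent.H85.AU

universe w

namespace Pool.Agent.H69.AU

theorem pf_HM0 : T_HM0.{w} := by
  intro C _ _ _ _ A B hfin b c k
  have key : ∀ e : ℤ, Finite ((DerivedCategory.singleFunctor C 0).obj A ⟶
      (DerivedCategory.singleFunctor C e).obj B) := by
    intro e
    rcases le_or_gt e 0 with he | he
    · obtain ⟨n, rfl⟩ : ∃ n : ℕ, e = -(n : ℤ) := ⟨e.natAbs, by lia⟩
      have := hfin n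
      refine Finite.of_injective (β := Abelian.Ext.{w} A B n) (fun φ =>
        Abelian.Ext.homEquiv.symm (φ ≫
          ((DerivedCategory.singleFunctors C).shiftIso (n : ℤ) (-(n : ℤ)) 0
            (by lia)).inv.app B)) ?_
      intro φ ψ h
      have h1 := Abelian.Ext.homEquiv.symm.injective h
      exact (cancel_mono _).1 h1
    · have hz : ∀ φ : (DerivedCategory.singleFunctor C 0).obj A ⟶
          (DerivedCategory.singleFunctor C e).obj B, φ = 0 := fun φ =>
        DerivedCategory.TStructure.t.zero φ 0 e he
      have : Subsingleton ((DerivedCategory.singleFunctor C 0).obj A ⟶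
          (DerivedCategory.singleFunctor C e).obj B) :=
        ⟨fun φ ψ => by rw [hz φ, hz ψ]⟩
      infer_instance
  have := key (c - k - b)
  refine Finite.of_injective (β := (DerivedCategory.singleFunctor C 0).obj A ⟶
      (DerivedCategory.singleFunctor C (c - k - b)).obj B) (fun φ =>
    ((DerivedCategory.singleFunctors C).shiftIso b 0 b (by lia)).inv.app A ≫ φ⟦b⟧' ≫
      (shiftFunctorAdd' (DerivedCategory C) k b (k + b) rfl).inv.app _ ≫
      ((DerivedCategory.singleFunctors C).shiftIso (k + b) (c - k - b) c (by lia)).hom.app B) ?_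
  intro φ ψ h
  have h1 := (cancel_epi _).1 h
  have h2 := (cancel_mono _).1 h1
  exact (shiftFunctor (DerivedCategory C) b).map_injective h2

end Pool.Agent.H69.AU
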