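import Pool.Agent.H85.AU.Targets

/-!
# MP_c9ef16_gt, board au, module L15
-/

open CategoryTheory CategoryTheory.Limits TopologicalSpace Topology Set
open Pool.Agent.H85.AU

universe w

namespace Pool.Agent.H69.AU

theorem pf_L15 : T_L15.{w} := by
  classical
  intro X _ _ _ C _ _ _ Z hZ hm t m hA N j x hx
  obtain ⟨U, hUo, hxU, -, hU⟩ := hA.contract x univ isOpen_univ (mem_univ x)
  let Q : C := cokernel (t.toCutSys.ep (co hZ (j + 1)) t.one)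
  -- the property of being locally isomorphic to `Q^r`
  let P : ℕ → C → Prop := fun r A => (t.Con N A ∧ t.Conc hZ j A) ∧ ∃ V : Opens X, x ∈ V ∧
    Nonempty (t.toCutSys.ob V A ≅ t.toCutSys.ob V (pw Q r))
  have hch : ∃ f : ℕ → C, ∀ r, (∃ A, P r A) → P r (f r) := by
    have : Nonempty C := ⟨t.one⟩
    refine ⟨fun r => if h : ∃ A, P r A then h.choose else t.one, fun r h => ?_⟩
    have h1 : (if h : ∃ A, P r A then h.choose else t.one) = h.choose := dif_pos h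
    show P r (if h : ∃ A, P r A then h.choose else t.one)
    rw [h1]
    exact h.choose_spec
  obtain ⟨f, hf⟩ := hch
  refine ⟨⟨U, hUo⟩, hxU, f '' {r | r ≤ N ∧ ∃ A, P r A}, ?_, ?_, ?_⟩
  · exact ((Set.finite_Iic N).subset (fun r hr => hr.1)).image f
  · rintro _ ⟨r, ⟨-, hr⟩, rfl⟩
    exact (hf r hr).1
  · rintro A ⟨hA1, hA2⟩
    obtain ⟨V, hxV, r, hr, ⟨e⟩⟩ := t.con_loc N A j hA1 hA2 x hx
    have hPA : P r A := ⟨⟨hA1, hA2⟩, V, hxV, ⟨e⟩⟩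
    have hPr := hf r ⟨A, hPA⟩
    obtain ⟨⟨hB1, hB2⟩, V', hxV', ⟨e'⟩⟩ := hPr
    refine ⟨f r, ⟨r, ⟨hr, A, hPA⟩, rfl⟩, ?_⟩
    obtain ⟨h, hh1, hh2⟩ := hU ((V ⊓ V' : Opens X) : Set X) (V ⊓ V').isOpen ⟨hxV, hxV'⟩
    exact t.sh2 N A (f r) hA1 hB1 ⟨U, hUo⟩ ⊤ (V ⊓ V') le_top le_top h hh1 hh2
      ⟨(t.toCutSys.rsi inf_le_left e) ≪≫ (t.toCutSys.rsi inf_le_right e').symm⟩

end Pool.Agent.H69.AU
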